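import Mathlib

/-!
Surface subgroups of groups defined by even systems (MP_83ce08_al).
Common definitions.
-/

set_option autoImplicit false

namespace Pool.Agent.SurfSub

open Monoid

/-- The relator of the standard presentation of the fundamental group of the closed orientable
surface of genus `g`. -/
def surfaceRel (g : ℕ) : FreeGroup (Fin g ⊕ Fin g) :=
  (List.ofFn (fun i : Fin g =>
    (FreeGroup.of (Sum.inl i : Fin g ⊕ Fin g) : FreeGroup (Fin g ⊕ Fin g))
      * (FreeGroup.of (Sum.inr i : Fin g ⊕ Fin g) : FreeGroup (Fin g ⊕ Fin g))
      * (FreeGroup.of (Sum.inl i : Fin g ⊕ Fin g) : FreeGroup (Fin g ⊕ Fin g))⁻¹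
      * (FreeGroup.of (Sum.inr i : Fin g ⊕ Fin g) : FreeGroup (Fin g ⊕ Fin g))⁻¹)).prod

/-- The fundamental group of the closed orientable surface of genus `g`. -/
abbrev SurfaceGroup (g : ℕ) : Type := PresentedGroup ({surfaceRel g} : Set (FreeGroup (Fin g ⊕ Fin g)))

/-! ### Even systems -/

section Even

variable {V : Type} (E : V → Type) [∀ v, Group (E v)]

open Classical in
/-- The endomorphism of the free product which is the identity on the factors `E v`, `v ∈ S`,
and kills the other factors. -/
noncomputable def keep (S : Set V) : CoprodI E →* CoprodI E :=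
  CoprodI.lift (fun v => if v ∈ S then (CoprodI.of : E v →* CoprodI E) else 1)

/-- The relators `R` form an even system over the graph `Γ`: every relator `r` is a word in the
factors `E v`, `v ∈ K`, for a clique `K` of `Γ` with at least two vertices, and it becomes trivial
when any single factor `E v`, `v ∈ K`, is killed. -/
def IsEven (Γ : SimpleGraph V) (R : Set (CoprodI E)) : Prop :=
  ∀ r ∈ R, ∃ K : Set V, K.Nontrivial ∧ Γ.IsClique K ∧ keep E K r = r ∧
    ∀ v ∈ K, keep E {v}ᶜ r = 1

/-- The group of the system: the quotient of the free product of the `E v` by the normal closure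
of the relators. -/
abbrev Grp (R : Set (CoprodI E)) : Type := CoprodI E ⧸ Subgroup.normalClosure R

variable {E}

/-- The canonical map of `E v` to the group of the system. -/
def inc (R : Set (CoprodI E)) (v : V) : E v →* Grp E R :=
  (QuotientGroup.mk' (Subgroup.normalClosure R)).comp (CoprodI.of : E v →* CoprodI E)

/-- The standard subgroup generated by the factors `E v`, `v ∈ S`. -/
def special (R : Set (CoprodI E)) (S : Set V) : Subgroup (Grp E R) :=
  ⨆ v ∈ S, (inc R v).range

end Even

/-! ### Polygon reflection groups -/

/-- Relators of the polygon reflection group with `k` sides and corner labels `M`. -/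
def polyRels (k : ℕ) (M : ZMod k → ℕ) : Set (FreeGroup (ZMod k)) :=
  {r | ∃ i, r = FreeGroup.of i ^ 2} ∪
    {r | ∃ i, r = (FreeGroup.of i * FreeGroup.of (i + 1)) ^ (M i)}

/-- The reflection group of a `k`-gon: generated by involutions `s i`, `i ∈ ZMod k`, with
`(s i * s (i+1)) ^ (M i) = 1`. -/
abbrev Poly (k : ℕ) (M : ZMod k → ℕ) : Type := PresentedGroup (polyRels k M)

/-- The standard generators. -/
def Poly.s {k : ℕ} (M : ZMod k → ℕ) (i : ZMod k) : Poly k M := PresentedGroup.of i

end Pool.Agent.SurfSub
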